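import Mathlib

namespace Pool.Agent.Results.MP_fd91d0_co.Counter

/-- `B` is dissociated: no nontrivial relation with coefficients in `{-1,0,1}`. -/
def Dissociated {G : Type} [AddCommGroup G] (B : Finset G) : Prop :=
  ∀ c : G → ℤ, (∀ b ∈ B, c b = -1 ∨ c b = 0 ∨ c b = 1) → ∑ b ∈ B, c b • b = 0 →
    ∀ b ∈ B, c b = 0

/-- Dissociativity dimension of `A`: largest size of a dissociated subset. -/
noncomputable def dim {G : Type} [AddCommGroup G] (A : Finset G) : ℕ :=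
  sSup {k | ∃ B : Finset G, B ⊆ A ∧ Dissociated B ∧ B.card = k}

/-- Least dimension of an `m`-element subset of `G`. -/
noncomputable def dimMin (G : Type) [AddCommGroup G] (m : ℕ) : ℕ :=
  sInf {d | ∃ A : Finset G, A.card = m ∧ dim A = d}

def fam : List (ZMod 17 × ZMod 17 × ZMod 17 × ZMod 17) :=
  [(1, 2, 4, 8), (9, 13, 15, 16), (3, 5, 6, 7)]

theorem fam_cover : ∀ x y : ZMod 17, ∃ p ∈ fam,
    x ∉ ({p.1, p.2.1, p.2.2.1, p.2.2.2} : Finset (ZMod 17)) ∧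
    y ∉ ({p.1, p.2.1, p.2.2.1, p.2.2.2} : Finset (ZMod 17)) := by
  decide +kernel

theorem fam_ok : ∀ p ∈ fam, p.1 ≠ p.2.1 ∧ p.1 ≠ p.2.2.1 ∧ p.1 ≠ p.2.2.2 ∧
    p.2.1 ≠ p.2.2.1 ∧ p.2.1 ≠ p.2.2.2 ∧ p.2.2.1 ≠ p.2.2.2 ∧
    ∀ a ∈ ([-1, 0, 1] : List ℤ), ∀ b ∈ ([-1, 0, 1] : List ℤ), ∀ c ∈ ([-1, 0, 1] : List ℤ),
      ∀ d ∈ ([-1, 0, 1] : List ℤ),
      (a : ZMod 17) * p.1 + ((b : ZMod 17) * p.2.1 + ((c : ZMod 17) * p.2.2.1
        + (d : ZMod 17) * p.2.2.2)) = 0 → a = 0 ∧ b = 0 ∧ c = 0 ∧ d = 0 := by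
  decide +kernel

theorem four_le (A : Finset (ZMod 17)) (hA : A.card = 15) : 4 ≤ dim A := by
  have hc : Aᶜ.card = 2 := by rw [Finset.card_compl, hA]; simp
  obtain ⟨x, y, -, hxy⟩ := Finset.card_eq_two.mp hc
  obtain ⟨⟨p, q, r, s⟩, hp, hx, hy⟩ := fam_cover x y
  obtain ⟨h1, h2, h3, h4, h5, h6, h7⟩ := fam_ok _ hp
  simp only at hx hy h1 h2 h3 h4 h5 h6 h7
  have hb : BddAbove {k | ∃ B : Finset (ZMod 17), B ⊆ A ∧ Dissociated B ∧ B.card = k} :=
    ⟨A.card, by rintro k ⟨B, hB, -, rfl⟩; exact Finset.card_le_card hB⟩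
  refine le_csSup hb ⟨{p, q, r, s}, ?_, ?_, ?_⟩
  · intro z hz
    by_contra hzA
    have : z ∈ Aᶜ := Finset.mem_compl.mpr hzA
    rw [hxy] at this
    simp only [Finset.mem_insert, Finset.mem_singleton] at this
    rcases this with rfl | rfl
    · exact hx hz
    · exact hy hz
  · intro c hc hs
    rw [Finset.sum_insert (by simp [h1, h2, h3]), Finset.sum_insert (by simp [h4, h5]),
      Finset.sum_insert (by simp [h6]), Finset.sum_singleton] at hs
    simp only [zsmul_eq_mul] at hs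
    have := h7 (c p) (by simpa using hc p (by simp)) (c q) (by simpa using hc q (by simp))
      (c r) (by simpa using hc r (by simp)) (c s) (by simpa using hc s (by simp)) hs
    intro b hb
    simp only [Finset.mem_insert, Finset.mem_singleton] at hb
    rcases hb with rfl | rfl | rfl | rfl <;> tauto
  · rw [Finset.card_insert_of_notMem (by simp [h1, h2, h3]),
      Finset.card_insert_of_notMem (by simp [h4, h5]),
      Finset.card_insert_of_notMem (by simp [h6]), Finset.card_singleton]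

theorem result : ∃ n m : ℕ, 1 ≤ m ∧ m ≤ n ∧ dimMin (ZMod n) m ≠ Nat.log 2 m := by
  refine ⟨17, 15, by norm_num, by norm_num, ?_⟩
  have hne : {d | ∃ A : Finset (ZMod 17), A.card = 15 ∧ dim A = d}.Nonempty :=
    ⟨_, ({0, 1} : Finset (ZMod 17))ᶜ, by decide +kernel, rfl⟩
  obtain ⟨A, hA, hd⟩ := Nat.sInf_mem hne
  have h4 := four_le A hA
  have h3 : Nat.log 2 15 = 3 := by norm_num
  rw [h3, dimMin, ← hd]
  omega

end Pool.Agent.Results.MP_fd91d0_co.Counter
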